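import Mathlib
import Pool.Agent.H762R3.SubB

set_option autoImplicit false

open Set Filter Topology

namespace Pool.Agent.Results.MP_c42e77_an.OmegaLevel

/-- The subsum `f(ε) = ∑ ε_n x_n`. -/
noncomputable def subsum (x : ℕ → ℝ) (ε : ℕ → Bool) : ℝ := ∑' n, if ε n = true then x n else 0

/-- The cardinality function `F_x(t) = card f⁻¹(t)`. -/
noncomputable def cardFun (x : ℕ → ℝ) (t : ℝ) : Cardinal := Cardinal.mk {ε : ℕ → Bool // subsum x ε = t}

/-- The level set `L_κ(x) = {t : F_x(t) = κ}`. -/
def levelSet (x : ℕ → ℝ) (κ : Cardinal) : Set ℝ := {t | cardFun x t = κ}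

/-- Q2 has a negative answer: there is a strictly decreasing summable sequence of positive reals for
which the set of reals having exactly countably infinitely many representations as a subsum is
nonempty but countable; in particular it contains no Cantor set. -/
theorem result : ∃ x : ℕ → ℝ, (∀ n, 0 < x n) ∧ StrictAnti x ∧ Summable x ∧
    (levelSet x Cardinal.aleph0).Nonempty ∧ (levelSet x Cardinal.aleph0).Countable ∧
    ¬ ∃ C : Set ℝ, C ⊆ levelSet x Cardinal.aleph0 ∧ Nonempty (C ≃ₜ (ℕ → Bool)) := by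
  have hcount : (levelSet Pool.Agent.H762R3.SubA.x Cardinal.aleph0).Countable := by
    have hsub : levelSet Pool.Agent.H762R3.SubA.x Cardinal.aleph0 ⊆
        (Pool.Agent.H762R3.SubA.subsum Pool.Agent.H762R3.SubA.x) '' Pool.Agent.H762R3.SubB.EP := by
      intro t ht
      have ht' : Cardinal.mk (Pool.Agent.H762R3.SubB.fib t) = Cardinal.aleph0 := ht
      have hc : (Pool.Agent.H762R3.SubB.fib t).Countable := by
        rw [← Cardinal.le_aleph0_iff_set_countable]
        exact ht'.le
      have hinf : (Pool.Agent.H762R3.SubB.fib t).Infinite := by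
        rw [← Set.infinite_coe_iff, Cardinal.infinite_iff]
        exact ht'.ge
      obtain ⟨g, hg, N, hN, hiso⟩ := Pool.Agent.H762R3.SubB.exists_isolated t hinf.nonempty hc
      exact ⟨g, Pool.Agent.H762R3.SubB.isolated_EP t hinf g hg N hN hiso, hg⟩
    exact (Pool.Agent.H762R3.SubB.EP_countable.image _).mono hsub
  refine ⟨Pool.Agent.H762R3.SubA.x, Pool.Agent.H762R3.SubA.x_pos, Pool.Agent.H762R3.SubA.x_strictAnti,
    Pool.Agent.H762R3.SubA.x_summable, ?_, hcount, ?_⟩
  · refine ⟨Pool.Agent.H762R3.SubA.subsum Pool.Agent.H762R3.SubA.x (Pool.Agent.H762R3.SubB.rep 0), ?_⟩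
    show Cardinal.mk (Pool.Agent.H762R3.SubB.fib (Pool.Agent.H762R3.SubA.subsum Pool.Agent.H762R3.SubA.x
      (Pool.Agent.H762R3.SubB.rep 0))) = Cardinal.aleph0
    apply le_antisymm
    · rw [Cardinal.le_aleph0_iff_set_countable]
      exact Pool.Agent.H762R3.SubB.EP_countable.mono Pool.Agent.H762R3.SubB.fib_rep_EP
    · rw [← Cardinal.infinite_iff, Set.infinite_coe_iff]
      exact Pool.Agent.H762R3.SubB.fib_rep_infinite
  · rintro ⟨C, hC, ⟨φ⟩⟩
    have h1 : C.Countable := hcount.mono hC
    have h2 : Countable C := h1.to_subtype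
    have h3 : Countable (ℕ → Bool) := φ.toEquiv.symm.countable_iff.2 h2
    exact Pool.Agent.H762R3.SubB.not_countable_cantor h3

end Pool.Agent.Results.MP_c42e77_an.OmegaLevel
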